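import Pool.Agent.Helper20.NP.Stmts

set_option autoImplicit false

namespace Pool.Agent.Helper20.NP

open Pool.Agent.Helper21.DN

universe u

section
variable {E : Type u} [Field E] (p : ℕ) [Fact p.Prime] [CharP E p]

theorem pwa_fp (c : E) (hc : c ^ p = c) : ∃ n : ℕ, (n : E) = c := by
  obtain ⟨n, hn⟩ := (_root_.mem_bot_iff_intCast p E).1 ((Subfield.mem_bot_iff_pow_eq_self E p).2 hc)
  have hp : (0 : ℤ) < p := by exact_mod_cast (Fact.out : p.Prime).pos
  refine ⟨(n % p).toNat, ?_⟩
  have h1 : (((n % p).toNat : ℕ) : ℤ) = n % p := Int.toNat_of_nonneg (Int.emod_nonneg n hp.ne')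
  have h2 : (((n % p).toNat : ℕ) : E) = ((n % p : ℤ) : E) := by
    rw [← h1]; push_cast; rfl
  rw [h2, ← hn]
  have h3 : n = n % p + p * (n / p) := (Int.emod_add_mul_ediv n p).symm
  have h4 : (n : E) = ((n % p : ℤ) : E) + (p : E) * ((n / p : ℤ) : E) := by
    conv_lhs => rw [h3]
    push_cast
    rfl
  rw [h4, CharP.cast_eq_zero E p, zero_mul, add_zero]

theorem pwa_sum (i : ℕ) : ∑ l ∈ Finset.range p, ((l : ZMod p)) ^ i = ∑ x : ZMod p, x ^ i := by
  apply Finset.sum_nbij' (fun l : ℕ => (l : ZMod p)) (fun x : ZMod p => x.val)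
  · intro l _; exact Finset.mem_univ _
  · intro x _; exact Finset.mem_range.2 (ZMod.val_lt x)
  · intro l hl; exact ZMod.val_cast_of_lt (Finset.mem_range.1 hl)
  · intro x _; exact ZMod.natCast_zmod_val x
  · intro l _; rfl

theorem pwa_sum0 (i : ℕ) (hi : i < p - 1) : ∑ l ∈ Finset.range p, ((l : E)) ^ i = 0 := by
  have h1 : ∑ l ∈ Finset.range p, ((l : ZMod p)) ^ i = 0 := by
    rw [pwa_sum]
    apply FiniteField.sum_pow_lt_card_sub_one
    rw [ZMod.card]
    exact hi
  have h2 := congrArg (ZMod.castHom (dvd_refl p) E) h1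
  rw [map_sum, map_zero] at h2
  rw [← h2]
  apply Finset.sum_congr rfl
  intro l _
  rw [map_pow, map_natCast]

theorem pwa_sum1 : ∑ l ∈ Finset.range p, ((l : E)) ^ (p - 1) = -1 := by
  have hp : p.Prime := Fact.out
  have h1 : ∑ l ∈ Finset.range p, ((l : E)) ^ (p - 1) =
      ∑ l ∈ Finset.range p, (if l = 0 then (0 : E) else 1) := by
    apply Finset.sum_congr rfl
    intro l hl
    split_ifs with h
    · rw [h, Nat.cast_zero, zero_pow (by have := hp.two_le; omega)]
    · have h2 : ((l : ZMod p)) ≠ 0 := by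
        rw [Ne, ZMod.natCast_eq_zero_iff]
        intro h3
        have := Nat.le_of_dvd (Nat.pos_of_ne_zero h) h3
        have := Finset.mem_range.1 hl
        omega
      have h3 := ZMod.pow_card_sub_one_eq_one h2
      have h4 := congrArg (ZMod.castHom (dvd_refl p) E) h3
      rw [map_pow, map_natCast, map_one] at h4
      exact h4
  rw [h1]
  have h5 : p = (p - 1) + 1 := by have := hp.two_le; omega
  rw [h5, Finset.sum_range_succ', if_pos rfl, add_zero]
  have h6 : ∑ k ∈ Finset.range (p - 1), (if k + 1 = 0 then (0 : E) else 1) =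
      ((p - 1 : ℕ) : E) := by
    rw [Finset.sum_congr rfl (fun k _ => if_neg (Nat.succ_ne_zero k)), Finset.sum_const,
      Finset.card_range, nsmul_eq_mul, mul_one]
  rw [h6, Nat.cast_sub (by have := hp.two_le; omega), CharP.cast_eq_zero E p]
  simp

theorem pwa_trace (w : E) : ∑ l ∈ Finset.range p, (w + l) ^ (p - 1) = -1 := by
  have hp : p.Prime := Fact.out
  have h1 : ∀ l ∈ Finset.range p, (w + (l : E)) ^ (p - 1) =
      ∑ k ∈ Finset.range (p - 1 + 1), w ^ k * (l : E) ^ (p - 1 - k) * ((p - 1).choose k : E) :=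
    fun l _ => add_pow w (l : E) (p - 1)
  rw [Finset.sum_congr rfl h1, Finset.sum_comm]
  rw [Finset.sum_range_succ']
  have h2 : ∑ k ∈ Finset.range (p - 1), ∑ l ∈ Finset.range p,
      w ^ (k + 1) * (l : E) ^ (p - 1 - (k + 1)) * ((p - 1).choose (k + 1) : E) = 0 := by
    apply Finset.sum_eq_zero
    intro k hk
    have hk' := Finset.mem_range.1 hk
    have h3 : ∑ l ∈ Finset.range p, w ^ (k + 1) * (l : E) ^ (p - 1 - (k + 1)) *
        ((p - 1).choose (k + 1) : E) = w ^ (k + 1) * ((p - 1).choose (k + 1) : E) *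
        ∑ l ∈ Finset.range p, (l : E) ^ (p - 1 - (k + 1)) := by
      rw [Finset.mul_sum]
      apply Finset.sum_congr rfl
      intro l _
      ring
    rw [h3, pwa_sum0 p _ (by omega), mul_zero]
  rw [h2, zero_add]
  have h4 : ∑ l ∈ Finset.range p, w ^ 0 * (l : E) ^ (p - 1 - 0) * ((p - 1).choose 0 : E) =
      ∑ l ∈ Finset.range p, (l : E) ^ (p - 1) := by
    apply Finset.sum_congr rfl
    intro l _
    rw [pow_zero, one_mul, Nat.sub_zero, Nat.choose_zero_right, Nat.cast_one, mul_one]
  rw [h4, pwa_sum1]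

theorem pwa_iter (σ τ : E ≃+* E) (h : ∀ x, τ (σ x) = σ (τ x)) (l : ℕ) (x : E) :
    τ (σ^[l] x) = σ^[l] (τ x) := by
  induction l with
  | zero => rfl
  | succ l ih => rw [Function.iterate_succ_apply', Function.iterate_succ_apply', h, ih]

/-- additive Hilbert 90 with an explicit element of trace one -/
theorem pwa_hil (σ : E ≃+* E) (hσ : ∀ x, σ^[p] x = x) (w : E) (hw : σ w = w + 1) (u0 : E)
    (hu : ∑ l ∈ Finset.range p, σ^[l] u0 = 0) :
    ∃ u : E, σ u - u = u0 ∧ ∀ τ : E ≃+* E, (∀ x, τ (σ x) = σ (τ x)) → τ w = w → τ u0 = u0 →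
      τ u = u := by
  set θ : E := -w ^ (p - 1) with hθ
  set S : ℕ → E := fun l => ∑ m ∈ Finset.range l, σ^[m] u0 with hS
  set T : ℕ → E := fun l => σ^[l] θ with hT
  have hwl : ∀ l : ℕ, σ^[l] w = w + l := by
    intro l
    induction l with
    | zero => simp
    | succ l ih =>
      rw [Function.iterate_succ_apply', ih, map_add, hw, map_natCast]
      push_cast
      ring
  have hTl : ∀ l : ℕ, T l = -(w + l) ^ (p - 1) := by
    intro l
    have : ∀ l : ℕ, σ^[l] θ = -(σ^[l] w) ^ (p - 1) := by
      intro l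
      induction l with
      | zero => rfl
      | succ l ih => rw [Function.iterate_succ_apply', ih, map_neg, map_pow,
          Function.iterate_succ_apply' (⇑σ) l w]
    change σ^[l] θ = _
    rw [this, hwl]
  have hTsum : ∑ l ∈ Finset.range p, T l = 1 := by
    rw [Finset.sum_congr rfl (fun l _ => hTl l), Finset.sum_neg_distrib, pwa_trace p w, neg_neg]
  have hTs : ∀ l, σ (T l) = T (l + 1) := fun l => (Function.iterate_succ_apply' (⇑σ) l θ).symm
  have hSs : ∀ l, σ (S l) = S (l + 1) - u0 := by
    intro l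
    change σ (∑ m ∈ Finset.range l, σ^[m] u0) = (∑ m ∈ Finset.range (l + 1), σ^[m] u0) - u0
    rw [map_sum, Finset.sum_range_succ']
    have : ∀ m ∈ Finset.range l, σ (σ^[m] u0) = σ^[m + 1] u0 :=
      fun m _ => (Function.iterate_succ_apply' (⇑σ) m u0).symm
    rw [Finset.sum_congr rfl this]
    simp
  have hS0 : S 0 = 0 := by simp [hS]
  have hSp : S p = 0 := hu
  have hTp : T p = T 0 := hσ θ
  have hshift : ∀ F : ℕ → E, ∑ l ∈ Finset.range p, F (l + 1) =
      ∑ l ∈ Finset.range p, F l + F p - F 0 := by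
    intro F
    have h1 := Finset.sum_range_succ F p
    have h2 := Finset.sum_range_succ' F p
    rw [h1] at h2
    linear_combination -h2
  refine ⟨-∑ l ∈ Finset.range p, S l * T l, ?_, ?_⟩
  · rw [map_neg, map_sum]
    have h1 : ∀ l ∈ Finset.range p, σ (S l * T l) =
        (fun k => S k * T k) (l + 1) - u0 * T (l + 1) := by
      intro l _
      rw [map_mul, hSs, hTs]
      ring
    rw [Finset.sum_congr rfl h1, Finset.sum_sub_distrib, hshift (fun k => S k * T k),
      ← Finset.mul_sum, hshift T, hTsum, hTp, hSp, hS0]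
    ring
  · intro τ hτ hτw hτu
    rw [map_neg, map_sum]
    congr 1
    apply Finset.sum_congr rfl
    intro l _
    rw [map_mul]
    congr 1
    · change τ (∑ m ∈ Finset.range l, σ^[m] u0) = ∑ m ∈ Finset.range l, σ^[m] u0
      rw [map_sum]
      apply Finset.sum_congr rfl
      intro m _
      rw [pwa_iter σ τ hτ, hτu]
    · change τ (σ^[l] θ) = σ^[l] θ
      rw [pwa_iter σ τ hτ, hθ, map_neg, map_pow, hτw]

end

theorem st_PWA : ST_PWA.{u} := by
  intro p _ E _ _ r σ w g f hcomm hord hw hf htr
  have hp : p.Prime := Fact.out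
  -- the constants
  have hc : ∀ i j, ∃ n : ℕ, (n : E) = (σ i (g j) - g j) - (σ j (g i) - g i) := by
    intro i j
    apply pwa_fp p
    rw [sub_pow_char, sub_pow_char, sub_pow_char, ← map_pow, ← map_pow]
    have h1 : g j ^ p = g j + (σ j f - f) := by rw [hf j]; ring
    have h2 : g i ^ p = g i + (σ i f - f) := by rw [hf i]; ring
    rw [h1, h2, map_add, map_add, map_sub, map_sub, hcomm i j f]
    ring
  choose c hc using hc
  set a : Fin (r + 1) → Fin (r + 1) → ℕ := fun i j => if i < j then c i j else 0 with ha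
  set α : Fin (r + 1) → E := fun i => w i ^ p - w i with hα
  have hαfix : ∀ i j, σ i (α j) = α j := by
    intro i j
    change σ i (w j ^ p - w j) = w j ^ p - w j
    rw [map_sub, map_pow, hw]
    split_ifs with h
    · rw [add_pow_char, one_pow]; ring
    · rw [add_zero]
  have hapow : ∀ n : ℕ, (n : E) ^ p = n := by
    intro n
    have h1 : ((n : ZMod p)) ^ p = n := ZMod.pow_card _
    have h2 := congrArg (ZMod.castHom (dvd_refl p) E) h1
    rw [map_pow, map_natCast] at h2
    exact h2
  set fs : E := ∑ i, ∑ j, (a i j : E) * α i * w j with hfs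
  set gs : Fin (r + 1) → E := fun l => ∑ i, (a i l : E) * w i with hgs
  have hsum_if : ∀ (l : Fin (r + 1)) (F : Fin (r + 1) → E),
      ∑ j, F j * (if l = j then (1 : E) else 0) = F l := by
    intro l F
    simp
  have hfs1 : ∀ l, σ l fs - fs = gs l ^ p - gs l := by
    intro l
    have h1 : σ l fs = ∑ i, ∑ j, ((a i j : E) * α i * w j +
        (a i j : E) * α i * (if l = j then (1 : E) else 0)) := by
      rw [hfs, map_sum]
      apply Finset.sum_congr rfl
      intro i _
      rw [map_sum]
      apply Finset.sum_congr rfl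
      intro j _
      rw [map_mul, map_mul, map_natCast, hαfix, hw]
      ring
    have h2 : σ l fs - fs = ∑ i, (a i l : E) * α i := by
      rw [h1]
      simp_rw [Finset.sum_add_distrib]
      rw [hfs, add_sub_cancel_left]
      apply Finset.sum_congr rfl
      intro i _
      exact hsum_if l (fun j => (a i j : E) * α i)
    have h3 : gs l ^ p = ∑ i, (a i l : E) * w i ^ p := by
      change (∑ i, (a i l : E) * w i) ^ p = _
      rw [sum_pow_char]
      apply Finset.sum_congr rfl
      intro i _
      rw [mul_pow, hapow]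
    rw [h2, h3]
    change _ = _ - ∑ i, (a i l : E) * w i
    rw [← Finset.sum_sub_distrib]
    apply Finset.sum_congr rfl
    intro i _
    change (a i l : E) * (w i ^ p - w i) = _
    ring
  have hgs1 : ∀ i j, σ i (gs j) - gs j = (a i j : E) := by
    intro i j
    have h1 : σ i (gs j) = ∑ k, ((a k j : E) * w k + (a k j : E) * (if i = k then (1 : E) else 0)) := by
      change σ i (∑ k, (a k j : E) * w k) = _
      rw [map_sum]
      apply Finset.sum_congr rfl
      intro k _
      rw [map_mul, map_natCast, hw]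
      ring
    rw [h1, Finset.sum_add_distrib, hsum_if i (fun k => (a k j : E))]
    change (∑ k, (a k j : E) * w k) + (a i j : E) - (∑ k, (a k j : E) * w k) = _
    ring
  have hgs0 : gs 0 = 0 := by
    change ∑ i, (a i 0 : E) * w i = 0
    apply Finset.sum_eq_zero
    intro i _
    have : a i 0 = 0 := if_neg (Fin.not_lt_zero i)
    rw [this, Nat.cast_zero, zero_mul]
  have hgsself : ∀ i, σ i (gs i) = gs i := by
    intro i
    have h1 := hgs1 i i
    have h2 : a i i = 0 := if_neg (lt_irrefl i)
    rw [h2, Nat.cast_zero] at h1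
    exact sub_eq_zero.1 h1
  -- the corrected data
  set gh : Fin (r + 1) → E := fun i => g i - gs i with hgh
  have hcoc : ∀ i j, σ i (gh j) - gh j = σ j (gh i) - gh i := by
    intro i j
    have h1 : σ i (gh j) - gh j = (σ i (g j) - g j) - (a i j : E) := by
      change σ i (g j - gs j) - (g j - gs j) = _
      rw [map_sub, ← hgs1 i j]; ring
    have h2 : σ j (gh i) - gh i = (σ j (g i) - g i) - (a j i : E) := by
      change σ j (g i - gs i) - (g i - gs i) = _
      rw [map_sub, ← hgs1 j i]; ring
    rw [h1, h2]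
    rcases lt_trichotomy i j with h | h | h
    · have e1 : a i j = c i j := if_pos h
      have e2 : a j i = 0 := if_neg (not_lt.2 h.le)
      rw [e1, e2, hc i j, Nat.cast_zero]; ring
    · subst h; rfl
    · have e1 : a j i = c j i := if_pos h
      have e2 : a i j = 0 := if_neg (not_lt.2 h.le)
      rw [e1, e2, hc j i, Nat.cast_zero]; ring
  have htrsub : ∀ i (x y : E), ∑ l ∈ Finset.range p, (σ i)^[l] (x - y) =
      ∑ l ∈ Finset.range p, (σ i)^[l] x - ∑ l ∈ Finset.range p, (σ i)^[l] y := by
    intro i x y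
    rw [← Finset.sum_sub_distrib]
    apply Finset.sum_congr rfl
    intro l _
    have key : ∀ l : ℕ, (σ i)^[l] (x - y) = (σ i)^[l] x - (σ i)^[l] y := by
      intro l
      induction l with
      | zero => rfl
      | succ l ih =>
        rw [Function.iterate_succ_apply', Function.iterate_succ_apply',
          Function.iterate_succ_apply', ih, map_sub]
    exact key l
  have htrfix : ∀ i (x : E), σ i x = x → ∑ l ∈ Finset.range p, (σ i)^[l] x = 0 := by
    intro i x hx
    have h1 : ∀ l : ℕ, (σ i)^[l] x = x := by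
      intro l
      induction l with
      | zero => rfl
      | succ l ih => rw [Function.iterate_succ_apply', ih, hx]
    rw [Finset.sum_congr rfl (fun l _ => h1 l), Finset.sum_const, Finset.card_range, nsmul_eq_mul,
      CharP.cast_eq_zero E p, zero_mul]
  have htrbd : ∀ i (x : E), ∑ l ∈ Finset.range p, (σ i)^[l] (σ i x - x) = 0 := by
    intro i x
    rw [htrsub]
    have h1 : ∀ l ∈ Finset.range p, (σ i)^[l] (σ i x) = (fun m => (σ i)^[m] x) (l + 1) :=
      fun l _ => (Function.iterate_succ_apply (⇑(σ i)) l x).symm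
    rw [Finset.sum_congr rfl h1]
    have h2 := Finset.sum_range_succ (fun m => (σ i)^[m] x) p
    have h3 := Finset.sum_range_succ' (fun m => (σ i)^[m] x) p
    have h4 : (σ i)^[p] x = (σ i)^[0] x := hord i x
    simp only [h4] at h2
    rw [h2] at h3
    linear_combination -h3
  have htrgh : ∀ i, i ≠ 0 → ∑ l ∈ Finset.range p, (σ i)^[l] (gh i) = 0 := by
    intro i hi
    change ∑ l ∈ Finset.range p, (σ i)^[l] (g i - gs i) = 0
    rw [htrsub, htr i hi, htrfix i (gs i) (hgsself i), sub_zero]
  -- the coboundary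
  have hclaim : ∀ S : Finset (Fin (r + 1)), (∀ i ∈ S, i ≠ 0) →
      ∃ h : E, ∀ i ∈ S, σ i h - h = gh i := by
    intro S
    induction S using Finset.induction_on with
    | empty => intro _; exact ⟨0, fun i hi => absurd hi (Finset.notMem_empty i)⟩
    | insert i S hiS ih =>
      intro hS
      obtain ⟨h', hh'⟩ := ih (fun j hj => hS j (Finset.mem_insert_of_mem hj))
      have hi0 : i ≠ 0 := hS i (Finset.mem_insert_self i S)
      obtain ⟨u, hu1, hu2⟩ := pwa_hil p (σ i) (hord i) (w i) (by rw [hw, if_pos rfl])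
        (gh i - (σ i h' - h')) (by rw [htrsub, htrgh i hi0, htrbd, sub_zero])
      refine ⟨h' + u, ?_⟩
      intro j hj
      rcases Finset.mem_insert.1 hj with rfl | hj
      · rw [map_add]
        linear_combination hu1
      · have hji : j ≠ i := fun h => hiS (h ▸ hj)
        have h1 : σ j u = u := by
          apply hu2 (σ j) (fun x => hcomm j i x)
          · rw [hw, if_neg hji, add_zero]
          · have h2 := hh' j hj
            have h3 := hcoc j i
            have h4 : σ j h' = h' + gh j := by rw [← h2]; ring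
            rw [map_sub (σ j) (gh i) (σ i h' - h'), map_sub (σ j) (σ i h') h', hcomm j i h', h4,
              map_add (σ i) h' (gh j)]
            linear_combination h3
        rw [map_add, h1]
        linear_combination hh' j hj
  obtain ⟨h, hh⟩ := hclaim (Finset.univ.filter (fun i => i ≠ 0)) (fun i hi => (Finset.mem_filter.1 hi).2)
  have hh : ∀ i, i ≠ 0 → σ i h - h = gh i := fun i hi =>
    hh i (Finset.mem_filter.2 ⟨Finset.mem_univ i, hi⟩)
  have hfh : ∀ i, σ i (f - fs) - (f - fs) = gh i ^ p - gh i := by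
    intro i
    rw [map_sub]
    change _ = (g i - gs i) ^ p - (g i - gs i)
    rw [sub_pow_char]
    linear_combination hf i - hfs1 i
  have hgh0 : gh 0 = g 0 := by
    change g 0 - gs 0 = g 0
    rw [hgs0, sub_zero]
  refine ⟨a, h, f - fs - (h ^ p - h), g 0 - (σ 0 h - h), ?_, ?_, ?_, ?_, ?_⟩
  · intro i j hij
    exact if_neg hij
  · change f = fs + (f - fs - (h ^ p - h)) + (h ^ p - h)
    ring
  · intro i hi
    constructor
    · have h1 := hfh i
      have h2 := hh i hi
      have h3 : (σ i h - h) ^ p = σ i (h ^ p) - h ^ p := by rw [sub_pow_char, map_pow]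
      rw [← h2, h3] at h1
      rw [map_sub (σ i) (f - fs) (h ^ p - h), map_sub (σ i) (h ^ p) h]
      linear_combination h1
    · have h2 := hh i hi
      have h3 := hcoc i 0
      rw [hgh0] at h3
      have h4 : σ i h = h + gh i := by rw [← h2]; ring
      rw [map_sub (σ i) (g 0) (σ 0 h - h), map_sub (σ i) (σ 0 h) h, hcomm i 0 h, h4,
        map_add (σ 0) h (gh i)]
      linear_combination h3
  · have h1 := hfh 0
    rw [hgh0] at h1
    have h3 : (g 0 - (σ 0 h - h)) ^ p = g 0 ^ p - (σ 0 (h ^ p) - h ^ p) := by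
      rw [sub_pow_char, sub_pow_char, map_pow]
    rw [h3, map_sub (σ 0) (f - fs) (h ^ p - h), map_sub (σ 0) (h ^ p) h]
    linear_combination h1
  · rw [htrsub, htrbd, sub_zero]

end Pool.Agent.Helper20.NP
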